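import Pool.Agent.N896.KS.SEG1
import Pool.Agent.N659.HB.Stm8

/-!
# Project SD, part NRES: the averaged resolvent and the effective phase
-/

set_option autoImplicit false
set_option linter.all false

namespace Pool.Agent.N221.SD.NRES

open MeasureTheory Filter Pool.Agent.W792.LL Pool.Agent.W792.WA Pool.Agent.N659.HB
open Pool.Agent.N916.HB (OA OA_apply ne_I cay_norm cay_mul dc_apply dc_norm mS toC_mS X_ne m_rel
  RR inv_alg sm_of int_apply sc1)
open Pool.Agent.N896.KS (uc uc_norm uc_mul ae_Pn ud_apply ud_norm ud_inner RR_inv RR_norm GS RR_exp)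
open scoped Topology ENNReal

noncomputable section

/-- multiplication by a bounded function -/
theorem dia_apply (hD : S_DIA) {Γ : Type} (c : Γ → ℂ) {B : ℝ} (hB : 0 < B) (h : ∀ x, ‖c x‖ ≤ B)
    (u : l2 Γ) (x : Γ) : dia c u x = c x * u x := by
  have hex : ∃ D : l2 Γ →L[ℂ] l2 Γ, ∀ u x, D u x = c x * u x := by
    refine ⟨(B : ℂ) • dia (fun x => c x / B), fun u x => ?_⟩
    have hB' : (B : ℂ) ≠ 0 := by exact_mod_cast hB.ne'
    have h1 := (hD Γ (fun x => c x / B) (fun x => by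
      rw [norm_div, Complex.norm_real, Real.norm_of_nonneg hB.le, div_le_one hB]
      exact h x)).1 u x
    rw [ContinuousLinearMap.smul_apply, lp.coeFn_smul, Pi.smul_apply, h1, smul_eq_mul,
      ← mul_assoc, mul_div_cancel₀ _ hB']
  unfold dia
  rw [dif_pos hex]
  exact Classical.choose_spec hex u x

variable {d : ℕ}

theorem vcl_eq (hD : S_DIA) {w : ℝ} (hw : 0 ≤ w) {v : (Fin d → ℤ) → ℝ} (hv : ∀ x, |v x| ≤ w) :
    vcl w v = ((w + 1 : ℝ) : ℂ) • ud (w + 1) v := by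
  have hw1 : 0 < w + 1 := by linarith
  have hcl : ∀ x, max (-w) (min w (v x)) = v x := by
    intro x
    have := abs_le.1 (hv x)
    rw [min_eq_right this.2, max_eq_right this.1]
  ext u x
  have h1 : vcl w v u x = (v x : ℂ) * u x := by
    unfold vcl
    rw [dia_apply hD _ hw1 (fun x => ?_) u x, hcl]
    rw [hcl, Complex.norm_real, Real.norm_eq_abs]
    linarith [hv x]
  rw [h1, ContinuousLinearMap.smul_apply, lp.coeFn_smul, Pi.smul_apply, ud_apply hD, smul_eq_mul,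
    ← mul_assoc, uc_mul hw1 (by linarith [hv x])]

theorem gr_eq (hO : S_OPR) (hD : S_DIA) (hC : S_CSYM) {w : ℝ} (hw : 0 ≤ w)
    (X : C(UnitAddTorus (Fin d), ℂ)) (h : ∀ k, X k - Complex.I ≠ 0) (hm : ‖mS X h‖ < 1)
    {v : (Fin d → ℤ) → ℝ} (hv : ∀ x, |v x| ≤ w) : gr w X v = RR X h v := by
  obtain ⟨h1, h2⟩ := RR_inv hO hD hC (α := w + 1) (by linarith) X h hm
    (v := v) (fun x => by linarith [hv x])
  unfold gr
  rw [vcl_eq hD hw hv, add_comm]
  exact Ring.inverse_unit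
    (⟨opr X + ((w + 1 : ℝ) : ℂ) • ud (w + 1) v, RR X h v, h1, h2⟩ :
      (l2 (Fin d → ℤ) →L[ℂ] l2 (Fin d → ℤ))ˣ)

theorem im_inner (hO : S_OPR) (hD : S_DIA) (hC : S_CSYM) (hS : S_SYMB) {α c : ℝ} (hα : 0 < α)
    (hc : 0 < c) (X : C(UnitAddTorus (Fin d), ℂ)) (hX : ∀ k, (X k).im ≤ -c)
    (h : ∀ k, X k - Complex.I ≠ 0) (hm : ‖mS X h‖ < 1)
    {v : (Fin d → ℤ) → ℝ} (hv : ∀ x, |v x| ≤ α) (w : l2 (Fin d → ℤ)) :
    c / (‖X‖ + α) ^ 2 * ‖w‖ ^ 2 ≤ (inner ℂ w (RR X h v w)).im := by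
  have hinv := (RR_inv hO hD hC hα X h hm hv).1
  set u := RR X h v w with hu
  have hw : (opr X + (α : ℂ) • ud α v) u = w := by
    have := congrArg (fun T : l2 (Fin d → ℤ) →L[ℂ] l2 (Fin d → ℤ) => T w) hinv
    simpa using this
  have hpos := ((hS d).2.2.1 (Complex.I • X - (c : ℂ) • 1)).2 (by
    intro k
    simp
    linarith [hX k]) u
  have e1 : opr (Complex.I • X - (c : ℂ) • 1) = Complex.I • opr X - (c : ℂ) • 1 := by
    have := map_sub (OA hO d) (Complex.I • X) ((c : ℂ) • 1)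
    rw [map_smul, map_smul, map_one] at this
    exact this
  rw [e1] at hpos
  have hreal : (inner ℂ u (ud α v u)).im = 0 := by
    have h1 := ud_inner hD α v u u
    have h2 : (starRingEnd ℂ) (inner ℂ u (ud α v u)) = inner ℂ u (ud α v u) := by
      rw [inner_conj_symm]
      exact h1
    exact Complex.conj_eq_iff_im.1 h2
  have e2 : (inner ℂ u ((Complex.I • opr X - (c : ℂ) • 1) u)).re =
      (inner ℂ u (Complex.I • w)).re - c * ‖u‖ ^ 2 := by
    rw [← hw]
    simp only [ContinuousLinearMap.sub_apply, ContinuousLinearMap.add_apply,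
      ContinuousLinearMap.smul_apply, ContinuousLinearMap.one_apply, inner_sub_right,
      inner_add_right, inner_smul_right, smul_add, Complex.sub_re, Complex.add_re,
      inner_self_eq_norm_sq_to_K]
    have : (Complex.I * ((α : ℂ) * inner ℂ u (ud α v u))).re = 0 := by
      simp [hreal]
    rw [this, add_zero]
    congr 1
    show ((c : ℂ) * ((‖u‖ : ℝ) : ℂ) ^ 2).re = _
    rw [← Complex.ofReal_pow, ← Complex.ofReal_mul, Complex.ofReal_re]
  rw [e2] at hpos
  have h3 : (inner ℂ u (Complex.I • w)).re = (inner ℂ w u).im := by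
    have e := congrArg Complex.im (inner_conj_symm w u)
    rw [Complex.conj_im] at e
    rw [inner_smul_right, ← e]
    simp [Complex.mul_re]
  rw [h3] at hpos
  have h4 : ‖w‖ ≤ (‖X‖ + α) * ‖u‖ := by
    rw [← hw]
    refine (ContinuousLinearMap.le_opNorm _ _).trans
      (mul_le_mul_of_nonneg_right ?_ (norm_nonneg _))
    refine (norm_add_le _ _).trans (add_le_add (hO d X X).2.1 ?_)
    rw [norm_smul, Complex.norm_real, Real.norm_of_nonneg hα.le]
    have := ud_norm hD α v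
    nlinarith
  have h5 : 0 < ‖X‖ + α := by positivity
  have h6 : ‖w‖ ^ 2 ≤ (‖X‖ + α) ^ 2 * ‖u‖ ^ 2 := by
    rw [← mul_pow]
    exact pow_le_pow_left₀ (norm_nonneg _) h4 2
  have h7 : c / (‖X‖ + α) ^ 2 * ‖w‖ ^ 2 ≤ c * ‖u‖ ^ 2 := by
    rw [div_mul_eq_mul_div, div_le_iff₀ (by positivity)]
    have := mul_le_mul_of_nonneg_left h6 hc.le
    linarith
  linarith

theorem GS_im (ν : Measure ℝ) [IsProbabilityMeasure ν] (hO : S_OPR) (hD : S_DIA) (hC : S_CSYM)
    (hS : S_SYMB) {α c : ℝ} (hα : 0 < α) (hc : 0 < c) (X : C(UnitAddTorus (Fin d), ℂ))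
    (hX : ∀ k, (X k).im ≤ -c) (h : ∀ k, X k - Complex.I ≠ 0) (hm : ‖mS X h‖ < 1)
    (hν : ∀ᵐ x ∂ν, |x| ≤ α) (k : UnitAddTorus (Fin d)) : 0 < (GS ν X h k).im := by
  set κ := c / (‖X‖ + α) ^ 2 with hκd
  have hκ : 0 < κ := by positivity
  have key := ((hS d).2.2.1 ((-Complex.I) • GS ν X h - (κ : ℂ) • 1)).1 (by
    intro u
    obtain ⟨hi, hint⟩ := RR_exp ν hO hD hC hS hc X hX h hm u
    have e1 : opr ((-Complex.I) • GS ν X h - (κ : ℂ) • 1)
        = (-Complex.I) • opr (GS ν X h) - (κ : ℂ) • 1 := by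
      have := map_sub (OA hO d) ((-Complex.I) • GS ν X h) ((κ : ℂ) • 1)
      rw [map_smul, map_smul, map_one] at this
      exact this
    rw [e1]
    have e2 : (inner ℂ u (((-Complex.I) • opr (GS ν X h) - (κ : ℂ) • 1) u)).re
        = (inner ℂ u (opr (GS ν X h) u)).im - κ * ‖u‖ ^ 2 := by
      simp only [ContinuousLinearMap.sub_apply, ContinuousLinearMap.smul_apply,
        ContinuousLinearMap.one_apply, inner_sub_right, inner_smul_right, Complex.sub_re,
        inner_self_eq_norm_sq_to_K]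
      have e3 : ((κ : ℂ) * ((‖u‖ : ℝ) : ℂ) ^ 2).re = κ * ‖u‖ ^ 2 := by
        rw [← Complex.ofReal_pow, ← Complex.ofReal_mul, Complex.ofReal_re]
      have e4 : (-Complex.I * inner ℂ u (opr (GS ν X h) u)).re
          = (inner ℂ u (opr (GS ν X h) u)).im := by simp
      rw [e4]
      congr 1
    rw [e2, ← hint, ← integral_inner hi u, sub_nonneg]
    have hi2 : Integrable (fun v => inner ℂ u (RR X h v u)) (Pn ν (Fin d → ℤ)) :=
      hi.const_inner u
    have e5 : (∫ v, inner ℂ u (RR X h v u) ∂(Pn ν (Fin d → ℤ))).im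
        = ∫ v, (inner ℂ u (RR X h v u)).im ∂(Pn ν (Fin d → ℤ)) :=
      (integral_im hi2).symm
    rw [e5]
    have e6 : κ * ‖u‖ ^ 2 = ∫ v : (Fin d → ℤ) → ℝ, κ * ‖u‖ ^ 2 ∂(Pn ν (Fin d → ℤ)) := by
      simp
    rw [e6]
    refine integral_mono_ae (integrable_const _) hi2.im ?_
    filter_upwards [ae_Pn ν hν d] with v hv
    exact im_inner hO hD hC hS hα hc X hX h hm hv u)
  have h1 := key k
  simp at h1
  linarith

theorem main : S_SYMB → S_CSYM → S_PSI → S_CX → S_OPR → S_DIA → S_GR → S_NRES := by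
  intro hS hC hP hCX hO hD _ ν _ d w c X hw hc hX hν
  obtain ⟨h0, h⟩ := X_ne hc hX
  have hm : ‖mS X h‖ < 1 := by
    obtain ⟨q, hq0, hq1, hq⟩ := hCX.2.2.1 0 ‖X‖ c hc
    refine lt_of_le_of_lt ((ContinuousMap.norm_le _ hq0).2 fun k => ?_) hq1
    have := hq (X k) 0 (X.norm_coe_le_norm k) (hX k) (by simp)
    rw [← toC_mS X h] at *
    have e : (toC fun k => cayx (X k) 0) k = cayx (X k) 0 := by
      rw [toC_mS X h]
      simp [mS, cayx]
    rw [e]
    exact this
  have hw1 : 0 < w + 1 := by linarith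
  refine ⟨GS ν X h, fun u x => ?_, fun k => ?_⟩
  · obtain ⟨hi, hint⟩ := RR_exp ν hO hD hC hS hc X hX h hm u
    rw [← hint, int_apply _ hi]
    refine integral_congr_ae ?_
    filter_upwards [ae_Pn ν hν d] with v hv
    rw [gr_eq hO hD hC hw X h hm hv]
  · have hG : GS ν X h k ≠ 0 := by
      intro h1
      have h2 := GS_im ν hO hD hC hS hw1 hc X hX h hm
        (hν.mono fun x hx => hx.trans (by linarith)) k
      rw [h1] at h2
      simp at h2
    refine ⟨hG, ?_⟩
    obtain ⟨a1, a2, a3, -⟩ :=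
      (hP ν d ‖mS X h‖ (mS X h) (mS X h) (norm_nonneg _) hm le_rfl le_rfl).1 k
    have eG : GS ν X h k = 1 / (2 * Complex.I) *
        ((1 - (1 - mS X h k) * csym ν (mS X h) k) * (mS X h k - 1)) := by
      simp [GS]
    rw [a2] at a3
    rw [eG] at hG
    have := sc1 (X k) (csym ν (mS X h) k) (mS X h k) (h k) rfl a1 hG a3
    rw [eG, toC_mS X h, a2]
    exact this.2

end

end Pool.Agent.N221.SD.NRES
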